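import Mathlib
import Pool.Agent.H37.Star.Low

set_option autoImplicit false

namespace Pool.Agent.H21.Hold

open Classical Pool.Agent.H37.Star

variable {P : Type} [PartialOrder P]

/-- The finite set of maximal chains of the principal ideal of `x`. -/
noncomputable def L [Fintype P] (x : P) : Finset (Set P) :=
  Finset.univ.filter (fun S => S ∈ Low x)

/-- The finite set of maximal chains of `P`. -/
noncomputable def MC (P : Type) [PartialOrder P] [Fintype P] : Finset (Set P) :=
  Finset.univ.filter (fun S => IsMaxChain (· ≤ ·) S)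

theorem mem_L [Fintype P] {x : P} {S : Set P} : S ∈ L x ↔ S ∈ Low x := by
  simp [L]

theorem mem_MC [Fintype P] {S : Set P} : S ∈ MC P ↔ IsMaxChain (· ≤ ·) S := by
  simp [MC]

theorem card_L [Fintype P] (x : P) : (L x).card = dn x := by
  unfold dn
  rw [← Set.ncard_coe_finset]
  congr 1
  ext S
  simp [L]

theorem card_MC [Fintype P] : (MC P).card = numMaxChains P := by
  unfold numMaxChains
  rw [← Set.ncard_coe_finset]
  congr 1
  ext S
  simp [MC]

theorem L_min [Fintype P] {x : P} (hx : IsMin x) : L x = {{x}} := by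
  ext S
  rw [mem_L, Finset.mem_singleton]
  constructor
  · rintro ⟨_, h2, h3, _⟩
    refine Set.Subset.antisymm (fun y hy => ?_) (fun y hy => ?_)
    · exact le_antisymm (h3 y hy) (hx (h3 y hy))
    · rw [hy]; exact h2
  · rintro rfl
    refine ⟨IsChain.singleton, rfl, fun y hy => le_of_eq hy, fun z hz _ => ?_⟩
    exact le_antisymm hz (hx hz)

/-- Summation over the maximal chains below a non-minimal element. -/
theorem sum_L [Fintype P] {x : P} (hx : ¬ IsMin x) (g : Set P → ℝ) :
    ∑ S ∈ L x, g S = ∑ z ∈ Finset.univ.filter (fun z => z ⋖ x), ∑ S ∈ L z, g (insert x S) := by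
  rw [Finset.sum_sigma' (Finset.univ.filter (fun z => z ⋖ x)) (fun z => L z)
    (fun _ S => g (insert x S))]
  refine (Finset.sum_bij (fun (a : Σ _ : P, Set P) _ => insert x a.2) ?_ ?_ ?_ ?_).symm
  · rintro ⟨z, S⟩ h
    rw [Finset.mem_sigma, Finset.mem_filter] at h
    exact mem_L.2 (low_insert h.1.2 (mem_L.1 h.2)).1
  · rintro ⟨z, S⟩ h ⟨w, T⟩ h' hST
    rw [Finset.mem_sigma, Finset.mem_filter] at h h'
    have hS := mem_L.1 h.2
    have hT := mem_L.1 h'.2
    have h1 := (low_insert h.1.2 hS).2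
    have h2 := (low_insert h'.1.2 hT).2
    have h3 : S = T := by
      have h4 : insert x S \ {x} = insert x T \ {x} := by
        rw [show insert x S = insert x T from hST]
      rwa [Set.insert_sdiff_self_of_notMem h1, Set.insert_sdiff_self_of_notMem h2] at h4
    have h3' : (⟨z, S⟩ : Σ _ : P, Set P) = ⟨w, T⟩ := by
      have hzw : z = w := by
        have hz : z ∈ S := hS.2.1
        have hw : w ∈ T := hT.2.1
        subst h3
        exact le_antisymm (hT.2.2.1 z hz) (hS.2.2.1 w hw)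
      rw [hzw, h3]
    exact h3'
  · intro S hS
    obtain ⟨z, hz, h1⟩ := low_erase hx (mem_L.1 hS)
    refine ⟨⟨z, S \ {x}⟩, ?_, ?_⟩
    · rw [Finset.mem_sigma, Finset.mem_filter]
      exact ⟨⟨Finset.mem_univ _, hz⟩, mem_L.2 h1⟩
    · show insert x (S \ {x}) = S
      rw [Set.insert_sdiff_singleton, Set.insert_eq_of_mem (mem_L.1 hS).2.1]
  · intro a _
    rfl

/-- A maximal chain below a maximal element is a maximal chain. -/
theorem maxChain_of_low {x : P} (hx : IsMax x) {S : Set P} (hS : S ∈ Low x) :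
    IsMaxChain (· ≤ ·) S := by
  rw [maxChain_iff]
  refine ⟨hS.1, fun z hz => ?_⟩
  rcases comparable_of_insert hz hS.2.1 with h | h
  · exact hS.2.2.2 z h hz
  · have : z = x := le_antisymm (hx h) h
    rw [this]; exact hS.2.1

theorem low_of_maxChain [Finite P] [Nonempty P] {C : Set P} (hC : IsMaxChain (· ≤ ·) C) :
    ∃ x, IsMax x ∧ C ∈ Low x := by
  rw [maxChain_iff] at hC
  have hne : C.Nonempty := by
    by_contra hcon
    rw [Set.not_nonempty_iff_eq_empty] at hcon
    obtain ⟨w⟩ := ‹Nonempty P›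
    have := hC.2 w (by rw [hcon]; simp)
    rw [hcon] at this
    exact this
  obtain ⟨x, hx1, hx2⟩ := (Set.toFinite C).exists_maximal hne
  have hmax : ∀ b ∈ C, b ≤ x := by
    intro b hb
    by_cases hbx : b = x
    · exact hbx.le
    rcases hC.1 hb hx1 hbx with h5 | h5
    · exact h5
    · exact hx2 hb h5
  refine ⟨x, fun z hz => ?_, hC.1, hx1, hmax, fun z _ hch => hC.2 z hch⟩
  have hzC : z ∈ C := hC.2 z (isChain_insert_of hC.1 fun b hb => Or.inr ((hmax b hb).trans hz))
  exact hmax z hzC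

/-- Summation over all maximal chains, sorted by the top element. -/
theorem sum_MC [Fintype P] [Nonempty P] (g : Set P → ℝ) :
    ∑ S ∈ MC P, g S = ∑ x ∈ Finset.univ.filter (fun x : P => IsMax x), ∑ S ∈ L x, g S := by
  rw [Finset.sum_sigma' (Finset.univ.filter (fun x : P => IsMax x)) (fun z => L z)
    (fun _ S => g S)]
  refine (Finset.sum_bij (fun (a : Σ _ : P, Set P) _ => a.2) ?_ ?_ ?_ ?_).symm
  · rintro ⟨z, S⟩ h
    rw [Finset.mem_sigma, Finset.mem_filter] at h
    exact mem_MC.2 (maxChain_of_low h.1.2 (mem_L.1 h.2))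
  · rintro ⟨z, S⟩ h ⟨w, T⟩ h' hST
    rw [Finset.mem_sigma, Finset.mem_filter] at h h'
    have hST' : S = T := hST
    have hS := mem_L.1 h.2
    have hT := mem_L.1 h'.2
    simp only at hS hT
    subst hST'
    have hzw : z = w := le_antisymm (hT.2.2.1 z hS.2.1) (hS.2.2.1 w hT.2.1)
    rw [hzw]
  · intro S hS
    obtain ⟨x, hx, h1⟩ := low_of_maxChain (mem_MC.1 hS)
    refine ⟨⟨x, S⟩, ?_, rfl⟩
    rw [Finset.mem_sigma, Finset.mem_filter]
    exact ⟨⟨Finset.mem_univ _, hx⟩, mem_L.2 h1⟩
  · intro a _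
    rfl

/-- The principal ideal of `x` has `dn x` maximal chains. -/
theorem numMaxChains_Iic [Fintype P] (x : P) : numMaxChains (Set.Iic x) = dn x := by
  unfold numMaxChains dn
  refine Set.ncard_congr (fun (C : Set (Set.Iic x)) _ => Subtype.val '' C) ?_ ?_ ?_
  · intro C hC
    rw [Set.mem_ofPred_eq, maxChain_iff] at hC
    refine ⟨?_, ?_, ?_, ?_⟩
    · rintro _ ⟨a, ha, rfl⟩ _ ⟨b, hb, rfl⟩ hab
      exact hC.1 ha hb (fun h => hab (by rw [h]))
    · refine ⟨⟨x, le_refl x⟩, hC.2 _ (isChain_insert_of hC.1 fun b _ => Or.inr b.2), rfl⟩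
    · rintro _ ⟨a, _, rfl⟩
      exact a.2
    · intro z hz hch
      refine ⟨⟨z, hz⟩, hC.2 _ (isChain_insert_of hC.1 fun b hb => ?_), rfl⟩
      have h5 : z ≤ b.1 ∨ b.1 ≤ z := comparable_of_insert hch ⟨b, hb, rfl⟩
      exact h5
  · intro C D _ _ h
    exact Subtype.val_injective.image_injective h
  · intro S hS
    refine ⟨Subtype.val ⁻¹' S, ?_, ?_⟩
    · rw [Set.mem_ofPred_eq, maxChain_iff]
      refine ⟨?_, ?_⟩
      · intro a ha b hb hab
        exact hS.1 ha hb (fun h => hab (Subtype.ext h))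
      · intro z hz
        refine hS.2.2.2 z.1 z.2 (isChain_insert_of hS.1 fun b hb => ?_)
        have hbx := hS.2.2.1 b hb
        have h5 : z ≤ ⟨b, hbx⟩ ∨ ⟨b, hbx⟩ ≤ z := comparable_of_insert hz hb
        exact h5
    · ext y
      constructor
      · rintro ⟨a, ha, rfl⟩
        exact ha
      · intro hy
        exact ⟨⟨y, hS.2.2.1 y hy⟩, hy, rfl⟩

end Pool.Agent.H21.Hold
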