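import Mathlib
import Pool.Agent.H21.Hold.Chains
import Pool.Agent.H37.Star.Main

set_option autoImplicit false

namespace Pool.Agent.H21.Hold

open Classical Pool.Agent.H37.Star

variable {P : Type} [PartialOrder P] [Fintype P]

/-- The first two conditions: rows count the chains, off-diagonal entries are inherited. -/
def Sch (F : P → P → ℝ) : Prop :=
  (∀ x y, 0 ≤ F x y) ∧ (∀ x, ∑ y, F x y = (L x).card) ∧
    ∀ x y, y ≠ x → F x y ≤ ∑ z ∈ Finset.univ.filter (fun z => z ⋖ x), F z y

/-- Chains below `x` which meet `A`. -/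
noncomputable def hA (A : Finset P) (x : P) : ℝ :=
  ∑ S ∈ L x, if ∃ y ∈ A, y ∈ S then (1 : ℝ) else 0

theorem hold_le {F : P → P → ℝ} (hF : Sch F) (A : Finset P) :
    ∀ x, ∑ y ∈ A, F x y ≤ hA A x := by
  intro x
  induction x using WellFoundedLT.induction with
  | ind x ih =>
  obtain ⟨h0, h1, h2⟩ := hF
  by_cases hx : x ∈ A
  · have h3 : hA A x = (L x).card := by
      unfold hA
      rw [Finset.sum_congr rfl (g := fun _ => (1 : ℝ)), Finset.sum_const, nsmul_eq_mul, mul_one]
      intro S hS
      rw [if_pos ⟨x, hx, (mem_L.1 hS).2.1⟩]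
    rw [h3, ← h1 x]
    exact Finset.sum_le_univ_sum_of_nonneg (fun y => h0 x y)
  · have h3 : ∑ y ∈ A, F x y ≤ ∑ z ∈ Finset.univ.filter (fun z => z ⋖ x), hA A z := by
      calc ∑ y ∈ A, F x y ≤ ∑ y ∈ A, ∑ z ∈ Finset.univ.filter (fun z => z ⋖ x), F z y :=
            Finset.sum_le_sum fun y hy => h2 x y (fun h => hx (h ▸ hy))
        _ = ∑ z ∈ Finset.univ.filter (fun z => z ⋖ x), ∑ y ∈ A, F z y := Finset.sum_comm
        _ ≤ _ := Finset.sum_le_sum fun z hz => ih z (Finset.mem_filter.1 hz).2.lt
    refine h3.trans ?_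
    by_cases hm : IsMin x
    · have h4 : Finset.univ.filter (fun z => z ⋖ x) = ∅ := by
        rw [Finset.filter_eq_empty_iff]
        intro z _ hz
        exact absurd hz.lt (hm.not_lt)
      rw [h4, Finset.sum_empty]
      exact Finset.sum_nonneg fun S _ => by split_ifs <;> norm_num
    · have h5 : hA A x = ∑ z ∈ Finset.univ.filter (fun z => z ⋖ x), hA A z := by
        unfold hA
        rw [sum_L hm]
        refine Finset.sum_congr rfl fun z _ => Finset.sum_congr rfl fun S _ => ?_
        have h6 : (∃ y ∈ A, y ∈ insert x S) ↔ ∃ y ∈ A, y ∈ S := by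
          constructor
          · rintro ⟨y, hy, h7 | h7⟩
            · exact absurd (h7 ▸ hy) hx
            · exact ⟨y, hy, h7⟩
          · rintro ⟨y, hy, h7⟩
            exact ⟨y, hy, Or.inr h7⟩
        simp only [h6]
      rw [h5]

theorem numHit_eq [Nonempty P] (A : Finset P) :
    (numHit P (A : Set P) : ℝ) = ∑ x ∈ Finset.univ.filter (fun x : P => IsMax x), hA A x := by
  unfold hA
  rw [← sum_MC, Finset.sum_ite, Finset.sum_const_zero, add_zero, Finset.sum_const, nsmul_eq_mul,
    mul_one]
  unfold numHit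
  rw [← Set.ncard_coe_finset]
  congr 2
  ext S
  simp only [Set.mem_ofPred_eq, Finset.coe_filter, mem_MC]
  constructor
  · rintro ⟨h1, y, hy1, hy2⟩
    exact ⟨h1, y, hy2, hy1⟩
  · rintro ⟨h1, y, hy1, hy2⟩
    exact ⟨h1, y, hy2, hy1⟩

theorem star_of_scheme [Nonempty P] {F : P → P → ℝ} (hF : Sch F)
    (hu : ∀ y, ∑ x ∈ Finset.univ.filter (fun x : P => IsMax x), F x y =
      (numMaxChains P : ℝ) / (Fintype.card P : ℝ)) : PropStar P := by
  intro A
  have hM : (0 : ℝ) < numMaxChains P := by exact_mod_cast numMaxChains_pos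
  have hn : (0 : ℝ) < Fintype.card P := by exact_mod_cast Fintype.card_pos
  have h1 : ((A.toFinset.card : ℝ)) * ((numMaxChains P : ℝ) / (Fintype.card P : ℝ)) ≤
      numHit P A := by
    have h2 := numHit_eq A.toFinset
    rw [Set.coe_toFinset] at h2
    rw [h2]
    calc ((A.toFinset.card : ℝ)) * ((numMaxChains P : ℝ) / (Fintype.card P : ℝ))
        = ∑ y ∈ A.toFinset, ∑ x ∈ Finset.univ.filter (fun x : P => IsMax x), F x y := by
          rw [Finset.sum_congr rfl fun y _ => hu y, Finset.sum_const, nsmul_eq_mul]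
      _ = ∑ x ∈ Finset.univ.filter (fun x : P => IsMax x), ∑ y ∈ A.toFinset, F x y :=
          Finset.sum_comm
      _ ≤ _ := Finset.sum_le_sum fun x _ => hold_le hF _ x
  rw [Set.ncard_eq_toFinset_card', Nat.card_eq_fintype_card, div_le_div_iff₀ hn hM]
  rw [mul_div_assoc', div_le_iff₀ hn] at h1
  exact h1

/-- The best element of a chain for the key `κ`. -/
def IsBest {R : Type} [LinearOrder R] (κ : P → R) (S : Set P) (y : P) : Prop :=
  y ∈ S ∧ ∀ s ∈ S, κ s ≤ κ y

theorem exists_best {R : Type} [LinearOrder R] (κ : P → R) {S : Set P} (hS : S.Nonempty) :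
    ∃ y, IsBest κ S y := by
  obtain ⟨y, hy, h⟩ := Set.exists_max_image S κ (Set.toFinite S) hS
  exact ⟨y, hy, h⟩

theorem best_unique {R : Type} [LinearOrder R] {κ : P → R} (hκ : Function.Injective κ)
    {S : Set P} {y z : P} (hy : IsBest κ S y) (hz : IsBest κ S z) : y = z :=
  hκ (le_antisymm (hz.2 y hy.1) (hy.2 z hz.1))

theorem sum_best {R : Type} [LinearOrder R] {κ : P → R} (hκ : Function.Injective κ)
    {S : Set P} (hS : S.Nonempty) (p : P → ℝ) {y : P} (hy : IsBest κ S y) :
    ∑ z, (if IsBest κ S z then p z else 0) = p y := by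
  rw [Finset.sum_eq_single y]
  · rw [if_pos hy]
  · intro z _ hz
    rw [if_neg fun h => hz (best_unique hκ h hy)]
  · intro h
    exact absurd (Finset.mem_univ _) h

/-- The greedy scheme of a key. -/
noncomputable def Fk {R : Type} [LinearOrder R] (κ : P → R) (x y : P) : ℝ :=
  ∑ S ∈ L x, if IsBest κ S y then (1 : ℝ) else 0

theorem sch_greedy {R : Type} [LinearOrder R] {κ : P → R} (hκ : Function.Injective κ) :
    Sch (Fk κ) := by
  refine ⟨fun x y => Finset.sum_nonneg fun S _ => by split_ifs <;> norm_num, fun x => ?_,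
    fun x y hyx => ?_⟩
  · unfold Fk
    rw [Finset.sum_comm]
    rw [Finset.sum_congr rfl (g := fun _ => (1 : ℝ)), Finset.sum_const, nsmul_eq_mul, mul_one]
    intro S hS
    have hne : S.Nonempty := ⟨x, (mem_L.1 hS).2.1⟩
    obtain ⟨w, hw⟩ := exists_best κ hne
    exact sum_best hκ hne (fun _ => 1) hw
  · by_cases hm : IsMin x
    · have h1 : Fk κ x y = 0 := by
        unfold Fk
        rw [L_min hm, Finset.sum_singleton, if_neg]
        rintro ⟨h2, _⟩
        exact hyx h2
      rw [h1]
      exact Finset.sum_nonneg fun z _ => Finset.sum_nonneg fun S _ => by split_ifs <;> norm_num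
    · unfold Fk
      rw [sum_L hm]
      refine Finset.sum_le_sum fun z _ => Finset.sum_le_sum fun S _ => ?_
      by_cases h1 : IsBest κ (insert x S) y
      · have h2 : IsBest κ S y := by
          refine ⟨?_, fun s hs => h1.2 s (Or.inr hs)⟩
          rcases h1.1 with h3 | h3
          · exact absurd h3 hyx
          · exact h3
        rw [if_pos h1, if_pos h2]
      · rw [if_neg h1]
        split_ifs <;> norm_num

/-- Hall's theorem: property `(∗)` bounds averages of maxima along chains. -/
theorem avg_le [Nonempty P] (h : PropStar P) (p : P → ℝ) (q : Set P → ℝ)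
    (hq : ∀ S ∈ MC P, ∀ y ∈ S, p y ≤ q S) :
    (numMaxChains P : ℝ) * ∑ y, p y ≤ (Fintype.card P : ℝ) * ∑ S ∈ MC P, q S := by
  set M := numMaxChains P with hMdef
  set n := Fintype.card P with hndef
  have hM : (0 : ℝ) < M := by exact_mod_cast numMaxChains_pos
  have hn : (0 : ℝ) < n := by exact_mod_cast Fintype.card_pos
  have key : ∀ A : Finset P, A.card * M ≤
      ((MC P).filter (fun S => ∃ y ∈ A, y ∈ S)).card * n := by
    intro A
    have h1 := h (A : Set P)
    rw [Set.ncard_coe_finset, Nat.card_eq_fintype_card, div_le_div_iff₀ hn hM] at h1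
    have h2 : numHit P (A : Set P) = ((MC P).filter (fun S => ∃ y ∈ A, y ∈ S)).card := by
      unfold numHit
      rw [← Set.ncard_coe_finset]
      congr 1
      ext S
      simp only [Set.mem_ofPred_eq, Finset.coe_filter, mem_MC]
      constructor
      · rintro ⟨h1, y, hy1, hy2⟩
        exact ⟨h1, y, hy2, hy1⟩
      · rintro ⟨h1, y, hy1, hy2⟩
        exact ⟨h1, y, hy2, hy1⟩
    rw [h2] at h1
    exact_mod_cast h1
  let t : P × Fin M → Finset (Set P × Fin n) := fun a =>
    ((MC P).filter (fun S => a.1 ∈ S)) ×ˢ (Finset.univ : Finset (Fin n))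
  have hall : ∃ f : P × Fin M → Set P × Fin n, Function.Injective f ∧ ∀ a, f a ∈ t a := by
    rw [← Finset.all_card_le_biUnion_card_iff_exists_injective]
    intro s
    set A := s.image Prod.fst with hA
    have h1 : s.card ≤ A.card * M := by
      calc s.card ≤ (A ×ˢ (Finset.univ : Finset (Fin M))).card := by
            refine Finset.card_le_card fun a ha => ?_
            rw [Finset.mem_product]
            exact ⟨Finset.mem_image_of_mem _ ha, Finset.mem_univ _⟩
        _ = A.card * M := by rw [Finset.card_product, Finset.card_univ, Fintype.card_fin]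
    refine h1.trans ((key A).trans ?_)
    have h2 : (((MC P).filter (fun S => ∃ y ∈ A, y ∈ S)) ×ˢ (Finset.univ : Finset (Fin n))) ⊆
        s.biUnion t := by
      rintro ⟨S, j⟩ hS
      rw [Finset.mem_product, Finset.mem_filter] at hS
      obtain ⟨⟨hS1, y, hy, hyS⟩, _⟩ := hS
      obtain ⟨a, ha, rfl⟩ := Finset.mem_image.1 hy
      rw [Finset.mem_biUnion]
      refine ⟨a, ha, ?_⟩
      simp only [t, Finset.mem_product, Finset.mem_filter, Finset.mem_univ, and_true]
      exact ⟨hS1, hyS⟩
    calc _ = (((MC P).filter (fun S => ∃ y ∈ A, y ∈ S)) ×ˢ (Finset.univ : Finset (Fin n))).card := by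
          rw [Finset.card_product, Finset.card_univ, Fintype.card_fin]
      _ ≤ _ := Finset.card_le_card h2
  obtain ⟨f, hf1, hf2⟩ := hall
  have himg : Finset.univ.image f = (MC P) ×ˢ (Finset.univ : Finset (Fin n)) := by
    refine Finset.eq_of_subset_of_card_le ?_ ?_
    · intro b hb
      obtain ⟨a, _, rfl⟩ := Finset.mem_image.1 hb
      have := hf2 a
      simp only [t, Finset.mem_product, Finset.mem_filter, Finset.mem_univ, and_true] at this
      rw [Finset.mem_product]
      exact ⟨this.1, Finset.mem_univ _⟩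
    · rw [Finset.card_image_of_injective _ hf1, Finset.card_product, card_MC, Finset.card_univ,
        Finset.card_univ, Fintype.card_fin, Fintype.card_prod, Fintype.card_fin]
      exact le_of_eq (Nat.mul_comm _ _)
  calc (M : ℝ) * ∑ y, p y = ∑ a : P × Fin M, p a.1 := by
        rw [Fintype.sum_prod_type]
        simp only [Finset.sum_const, Finset.card_univ, Fintype.card_fin, nsmul_eq_mul]
        rw [Finset.mul_sum]
    _ ≤ ∑ a : P × Fin M, q (f a).1 := by
        refine Finset.sum_le_sum fun a _ => ?_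
        have := hf2 a
        simp only [t, Finset.mem_product, Finset.mem_filter, Finset.mem_univ, and_true] at this
        exact hq _ this.1 _ this.2
    _ = ∑ b ∈ (MC P) ×ˢ (Finset.univ : Finset (Fin n)), q b.1 := by
        rw [← himg, Finset.sum_image fun a _ b _ hab => hf1 hab]
    _ = (n : ℝ) * ∑ S ∈ MC P, q S := by
        rw [Finset.sum_product]
        simp only [Finset.sum_const, Finset.card_univ, Fintype.card_fin, nsmul_eq_mul]
        rw [Finset.mul_sum]

end Pool.Agent.H21.Hold
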