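import Mathlib
import Pool.Agent.H21.Hold.Scheme

set_option autoImplicit false

namespace Pool.Agent.H21.Hold

open Classical Pool.Agent.H37.Star

variable {P : Type} [PartialOrder P] [Fintype P]

theorem isClosed_sch : IsClosed {F : P → P → ℝ | Sch F} := by
  have hc : ∀ x y : P, Continuous fun F : P → P → ℝ => F x y := fun x y =>
    (continuous_apply y).comp (continuous_apply x)
  have h1 : IsClosed {F : P → P → ℝ | ∀ x y, 0 ≤ F x y} := by
    simp only [Set.ofPred_forall]
    exact isClosed_iInter fun x => isClosed_iInter fun y => isClosed_le continuous_const (hc x y)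
  have h2 : IsClosed {F : P → P → ℝ | ∀ x, ∑ y, F x y = (L x).card} := by
    simp only [Set.ofPred_forall]
    exact isClosed_iInter fun x => isClosed_eq
      (continuous_finsetSum _ fun y _ => hc x y) continuous_const
  have h3 : IsClosed {F : P → P → ℝ | ∀ x y, y ≠ x →
      F x y ≤ ∑ z ∈ Finset.univ.filter (fun z => z ⋖ x), F z y} := by
    simp only [Set.ofPred_forall]
    exact isClosed_iInter fun x => isClosed_iInter fun y => isClosed_iInter fun _ =>
      isClosed_le (hc x y) (continuous_finsetSum _ fun z _ => hc z y)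
  exact h1.inter (h2.inter h3)

theorem isCompact_sch : IsCompact {F : P → P → ℝ | Sch F} := by
  have hK : IsCompact (Set.pi Set.univ fun x : P => Set.pi Set.univ fun _ : P =>
      Set.Icc (0 : ℝ) (L x).card) :=
    isCompact_univ_pi fun x => isCompact_univ_pi fun _ => isCompact_Icc
  refine hK.of_isClosed_subset isClosed_sch ?_
  rintro F ⟨h0, h1, _⟩ x _ y _
  refine ⟨h0 x y, ?_⟩
  rw [← h1 x]
  exact Finset.single_le_sum (fun z _ => h0 x z) (Finset.mem_univ y)

/-- The linear map sending a scheme to the distribution of the element held at the end. -/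
noncomputable def fin (P : Type) [PartialOrder P] [Fintype P] : (P → P → ℝ) →ₗ[ℝ] (P → ℝ) where
  toFun F := fun y => ∑ x ∈ Finset.univ.filter (fun x : P => IsMax x), F x y
  map_add' F G := by
    funext y
    simp only [Pi.add_apply, Finset.sum_add_distrib]
  map_smul' c F := by
    funext y
    simp only [Pi.smul_apply, smul_eq_mul, RingHom.id_apply, Finset.mul_sum]

theorem convex_sch : Convex ℝ {F : P → P → ℝ | Sch F} := by
  rintro F ⟨f0, f1, f2⟩ G ⟨g0, g1, g2⟩ a b ha hb hab
  refine ⟨fun x y => ?_, fun x => ?_, fun x y hyx => ?_⟩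
  · simp only [Pi.add_apply, Pi.smul_apply, smul_eq_mul]
    have := f0 x y
    have := g0 x y
    positivity
  · simp only [Pi.add_apply, Pi.smul_apply, smul_eq_mul, Finset.sum_add_distrib, ← Finset.mul_sum,
      f1 x, g1 x]
    rw [← add_mul, hab, one_mul]
  · simp only [Pi.add_apply, Pi.smul_apply, smul_eq_mul, Finset.sum_add_distrib, ← Finset.mul_sum]
    exact add_le_add (mul_le_mul_of_nonneg_left (f2 x y hyx) ha)
      (mul_le_mul_of_nonneg_left (g2 x y hyx) hb)

theorem scheme_of_star [Nonempty P] (h : PropStar P) :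
    ∃ F : P → P → ℝ, Sch F ∧
      ∀ y, ∑ x ∈ Finset.univ.filter (fun x : P => IsMax x), F x y =
        (numMaxChains P : ℝ) / (Fintype.card P : ℝ) := by
  set K := (fin P) '' {F : P → P → ℝ | Sch F} with hKdef
  set u : P → ℝ := fun _ => (numMaxChains P : ℝ) / (Fintype.card P : ℝ) with hu
  have hn : (0 : ℝ) < Fintype.card P := by exact_mod_cast Fintype.card_pos
  by_cases hmem : u ∈ K
  · obtain ⟨F, hF, hFu⟩ := hmem
    exact ⟨F, hF, fun y => congrFun hFu y⟩
  exfalso
  have hcont : Continuous (fin P) := LinearMap.continuous_of_finiteDimensional _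
  have hKc : IsClosed K := (isCompact_sch.image hcont).isClosed
  have hKv : Convex ℝ K := convex_sch.linear_image _
  obtain ⟨f, c, hf1, hf2⟩ := geometric_hahn_banach_closed_point hKv hKc hmem
  set p : P → ℝ := fun y => f (Pi.single y 1) with hp
  have hfp : ∀ v : P → ℝ, f v = ∑ y, v y * p y := by
    intro v
    have h1 := LinearMap.pi_apply_eq_sum_univ (f : (P → ℝ) →ₗ[ℝ] ℝ) v
    rw [ContinuousLinearMap.coe_coe] at h1
    rw [h1]
    refine Finset.sum_congr rfl fun y _ => ?_
    rw [smul_eq_mul]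
    congr 2
    funext z
    rw [Pi.single_apply]
    by_cases hz : y = z
    · rw [if_pos hz, if_pos hz.symm]
    · rw [if_neg hz, if_neg fun h => hz h.symm]
  set κ : P → ℝ ×ₗ Fin (Fintype.card P) := fun y => toLex (p y, Fintype.equivFin P y) with hκdef
  have hκ : Function.Injective κ := by
    intro a b hab
    have h1 := congrArg ofLex hab
    simp only [κ, ofLex_toLex, Prod.mk.injEq] at h1
    exact (Fintype.equivFin P).injective h1.2
  have hmono : ∀ a b, κ a ≤ κ b → p a ≤ p b := by
    intro a b hab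
    rw [Prod.Lex.le_iff] at hab
    simp only [κ, ofLex_toLex] at hab
    rcases hab with h1 | h1
    · exact h1.le
    · exact h1.1.le
  have hv := hf1 (fin P (Fk κ)) ⟨Fk κ, sch_greedy hκ, rfl⟩
  set q : Set P → ℝ := fun S => ∑ y, if IsBest κ S y then p y else 0 with hq
  have hval : f (fin P (Fk κ)) = ∑ S ∈ MC P, q S := by
    rw [hfp, sum_MC]
    simp only [fin, LinearMap.coe_mk, AddHom.coe_mk, Fk, q]
    simp only [Finset.sum_mul]
    rw [Finset.sum_comm]
    refine Finset.sum_congr rfl fun x _ => ?_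
    rw [Finset.sum_comm]
    refine Finset.sum_congr rfl fun S _ => Finset.sum_congr rfl fun y _ => ?_
    split_ifs <;> simp
  have hqle : ∀ S ∈ MC P, ∀ y ∈ S, p y ≤ q S := by
    intro S _ y hy
    obtain ⟨w, hw⟩ := exists_best κ ⟨y, hy⟩
    have h1 : q S = p w := sum_best hκ ⟨y, hy⟩ p hw
    rw [h1]
    exact hmono _ _ (hw.2 y hy)
  have h3 := avg_le h p q hqle
  have h4 : f u = (numMaxChains P : ℝ) / (Fintype.card P : ℝ) * ∑ y, p y := by
    rw [hfp, Finset.mul_sum]
  have h5 : f u ≤ f (fin P (Fk κ)) := by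
    rw [h4, hval, div_mul_eq_mul_div, div_le_iff₀ hn]
    linarith [h3]
  linarith

/-- The compact criterion. -/
theorem star_iff [Nonempty P] : PropStar P ↔ ∃ F : P → P → ℝ,
    (∀ x y, 0 ≤ F x y) ∧
    (∀ x, ∑ y, F x y = (numMaxChains (Set.Iic x) : ℝ)) ∧
    (∀ x y, y ≠ x → F x y ≤ ∑ z ∈ Finset.univ.filter (fun z => z ⋖ x), F z y) ∧
    (∀ y, ∑ x ∈ Finset.univ.filter (fun x : P => IsMax x), F x y =
      (numMaxChains P : ℝ) / (Fintype.card P : ℝ)) := by
  constructor
  · intro h
    obtain ⟨F, ⟨h0, h1, h2⟩, h3⟩ := scheme_of_star h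
    refine ⟨F, h0, fun x => ?_, h2, h3⟩
    rw [h1 x, card_L, numMaxChains_Iic]
  · rintro ⟨F, h0, h1, h2, h3⟩
    refine star_of_scheme (F := F) ⟨h0, fun x => ?_, h2⟩ h3
    rw [h1 x, card_L, numMaxChains_Iic]

end Pool.Agent.H21.Hold
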